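import Mathlib
import Pool.Agent.Lib.MP_2c0ab4_co.Colorings
import Pool.Agent.Lib.MP_2c0ab4_co.H61.Ext

/-!
# Log-concavity of the chromatic polynomial for `x ≥ n - 1`, with an explicit gap
-/

set_option autoImplicit false

namespace Pool.Agent.Results.MP_2c0ab4_co.StrongLogConcavity

open Polynomial

/-- `p` is the chromatic polynomial of `G`: at each positive integer `q` its value is the number
of proper colourings of `G` with `q` colours. -/
def IsChromaticPolynomial {V : Type} (G : SimpleGraph V) (p : ℝ[X]) : Prop :=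
  ∀ q : ℕ, 1 ≤ q → p.eval (q : ℝ) = (Nat.card (G.Coloring (Fin q)) : ℝ)

/-- A finite simple graph `G` on `n` vertices has exactly one chromatic polynomial `p`, and for
every real `x ≥ n - 1`:
`p (x + 1) p (x - 1) ≤ (1 - n (x - n + 1) / (x ^ 2 (x + n))) p x ^ 2`. -/
theorem result (V : Type) [Fintype V] (G : SimpleGraph V) :
    (∃! p : ℝ[X], IsChromaticPolynomial G p) ∧
    ∀ p : ℝ[X], IsChromaticPolynomial G p →
      ∀ x : ℝ, (Fintype.card V : ℝ) - 1 ≤ x →
        p.eval (x + 1) * p.eval (x - 1) ≤
          (1 - Fintype.card V * (x - Fintype.card V + 1) / (x ^ 2 * (x + Fintype.card V))) *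
            p.eval x ^ 2 := by
  classical
  have huniq : ∀ p r : ℝ[X], IsChromaticPolynomial G p → IsChromaticPolynomial G r → p = r := by
    intro p r hp hr
    apply Lib.MP_2c0ab4_co.poly_eq_of_nat
    intro k
    have h1 := hp (k + 1) (by omega)
    have h2 := hr (k + 1) (by omega)
    push_cast at h1 h2
    rw [h1, h2]
  have huniv : IsChromaticPolynomial G (Lib.MP_2c0ab4_co.chromPoly G Finset.univ) := by
    intro k _
    rw [Lib.MP_2c0ab4_co.chromPoly_eval, Lib.MP_2c0ab4_co.card_coloring]
  have hF := Lib.MP_2c0ab4_co.chromFam G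
  refine ⟨⟨_, huniv, fun p hp => huniq p _ hp huniv⟩, ?_⟩
  intro p hp x hx
  obtain rfl := huniq p _ hp huniv
  have hc : ((Finset.univ : Finset V).card : ℝ) = Fintype.card V := by
    rw [Finset.card_univ]
  have := Lib.MP_2c0ab4_co.H61.logConcaveGap hF Finset.univ x (by rw [hc]; linarith)
  rw [hc] at this
  exact this

end Pool.Agent.Results.MP_2c0ab4_co.StrongLogConcavity
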